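import Pool.Agent.Helper84.OPC.Stmts

/-! # OPC, module K33: the complete bipartite graph K33 is not planar -/

set_option autoImplicit false

namespace OPC

/-- the third and fourth coordinate functions -/
noncomputable def k33_d (a : Fin 3 → ℝ) : ℝ :=
  max 0 (min (a 0) (a 1)) + max 0 (min (a 0) (a 2)) + max 0 (min (a 1) (a 2))

theorem k33_fin3 : ∀ i j u v : Fin 3, i ≠ j → u ≠ v → ¬ u = i → ¬ u = j → ¬ v = i → ¬ v = j →
    (0 : ℕ) ≠ 0 := by
  decide

theorem k33_other : ∀ i : Fin 3, ∃ j : Fin 3, j ≠ i := by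
  decide

theorem k33_d_nonneg_terms (u v : ℝ) : 0 ≤ max 0 (min u v) := le_max_left _ _

theorem k33_zero_of_max {u v : ℝ} (hu : 0 ≤ u) (hv : 0 ≤ v) (h : max 0 (min u v) = 0) :
    u = 0 ∨ v = 0 := by
  have h1 : min u v ≤ 0 := by
    rw [← h]
    exact le_max_right _ _
  rcases min_le_iff.1 h1 with h2 | h2
  · exact Or.inl (le_antisymm h2 hu)
  · exact Or.inr (le_antisymm h2 hv)

theorem k33_d_zero {a : Fin 3 → ℝ} (ha : ∀ i, 0 ≤ a i) (h : k33_d a = 0) :
    ∃ i : Fin 3, ∀ k, k ≠ i → a k = 0 := by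
  unfold k33_d at h
  have t1 := k33_d_nonneg_terms (a 0) (a 1)
  have t2 := k33_d_nonneg_terms (a 0) (a 2)
  have t3 := k33_d_nonneg_terms (a 1) (a 2)
  have e1 : max 0 (min (a 0) (a 1)) = 0 := by linarith
  have e2 : max 0 (min (a 0) (a 2)) = 0 := by linarith
  have e3 : max 0 (min (a 1) (a 2)) = 0 := by linarith
  have c1 := k33_zero_of_max (ha 0) (ha 1) e1
  have c2 := k33_zero_of_max (ha 0) (ha 2) e2
  have c3 := k33_zero_of_max (ha 1) (ha 2) e3
  by_cases h0 : a 0 = 0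
  · rcases c3 with h1 | h2
    · refine ⟨2, fun k hk => ?_⟩
      fin_cases k
      · exact h0
      · exact h1
      · exact absurd rfl hk
    · refine ⟨1, fun k hk => ?_⟩
      fin_cases k
      · exact h0
      · exact absurd rfl hk
      · exact h2
  · have h1 := c1.resolve_left h0
    have h2 := c2.resolve_left h0
    refine ⟨0, fun k hk => ?_⟩
    fin_cases k
    · exact absurd rfl hk
    · exact h1
    · exact h2

theorem k33_d_eq_zero {a : Fin 3 → ℝ} (ha : ∀ i, 0 ≤ a i) {i j : Fin 3} (hij : i ≠ j)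
    (hi : a i = 0) (hj : a j = 0) : k33_d a = 0 := by
  have key : ∀ u v : Fin 3, u ≠ v → a u = 0 ∨ a v = 0 := by
    intro u v huv
    by_cases h1 : u = i
    · exact Or.inl (h1 ▸ hi)
    by_cases h2 : u = j
    · exact Or.inl (h2 ▸ hj)
    by_cases h3 : v = i
    · exact Or.inr (h3 ▸ hi)
    by_cases h4 : v = j
    · exact Or.inr (h4 ▸ hj)
    · exact absurd rfl (k33_fin3 i j u v hij huv h1 h2 h3 h4)
  have t : ∀ u v : Fin 3, u ≠ v → max 0 (min (a u) (a v)) = 0 := by
    intro u v huv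
    rcases key u v huv with h | h
    · rw [h, min_eq_left (ha v), max_self]
    · rw [h, min_eq_right (ha u), max_self]
  unfold k33_d
  rw [t 0 1 (by decide), t 0 2 (by decide), t 1 2 (by decide)]
  norm_num

theorem k33_pair {a b : Fin 3 → ℝ} (ha : ∀ i, 0 ≤ a i) (hb : ∀ i, 0 ≤ b i)
    (h : ∀ i, a i = 0 ∨ b i = 0) (hd : k33_d a = k33_d b) :
    ∃ i i' : Fin 3, i ≠ i' ∧ (∀ k, k ≠ i → a k = 0) ∧ (∀ k, k ≠ i' → b k = 0) := by
  have hz : k33_d a = 0 ∨ k33_d b = 0 := by
    rcases h 0 with h0 | h0 <;> rcases h 1 with h1 | h1 <;> rcases h 2 with h2 | h2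
    · exact Or.inl (k33_d_eq_zero ha (i := 0) (j := 1) (by decide) h0 h1)
    · exact Or.inl (k33_d_eq_zero ha (i := 0) (j := 1) (by decide) h0 h1)
    · exact Or.inl (k33_d_eq_zero ha (i := 0) (j := 2) (by decide) h0 h2)
    · exact Or.inr (k33_d_eq_zero hb (i := 1) (j := 2) (by decide) h1 h2)
    · exact Or.inl (k33_d_eq_zero ha (i := 1) (j := 2) (by decide) h1 h2)
    · exact Or.inr (k33_d_eq_zero hb (i := 0) (j := 2) (by decide) h0 h2)
    · exact Or.inr (k33_d_eq_zero hb (i := 0) (j := 1) (by decide) h0 h1)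
    · exact Or.inr (k33_d_eq_zero hb (i := 0) (j := 1) (by decide) h0 h1)
  have hza : k33_d a = 0 := by
    rcases hz with hz | hz
    · exact hz
    · rw [hd, hz]
  have hzb : k33_d b = 0 := by rw [← hd, hza]
  obtain ⟨i, hi⟩ := k33_d_zero ha hza
  obtain ⟨i', hi'⟩ := k33_d_zero hb hzb
  by_cases hii : i = i'
  · subst hii
    obtain ⟨j, hj⟩ : ∃ j : Fin 3, j ≠ i := k33_other i
    rcases h i with h0 | h0
    · refine ⟨j, i, hj, fun k _ => ?_, hi'⟩
      by_cases hk : k = i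
      · rw [hk, h0]
      · exact hi k hk
    · refine ⟨i, j, hj.symm, hi, fun k _ => ?_⟩
      by_cases hk : k = i
      · rw [hk, h0]
      · exact hi' k hk
  · exact ⟨i, i', hii, hi, hi'⟩

/-- left and right vertices -/
def k33_l (i : Fin 3) : Fin 6 := ⟨i.1, by omega⟩

def k33_r (j : Fin 3) : Fin 6 := ⟨j.1 + 3, by omega⟩

theorem k33_cases (k : Fin 6) : (∃ i, k = k33_l i) ∨ ∃ j, k = k33_r j := by
  by_cases h : k.1 < 3
  · exact Or.inl ⟨⟨k.1, h⟩, rfl⟩
  · refine Or.inr ⟨⟨k.1 - 3, by omega⟩, ?_⟩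
    apply Fin.ext
    show k.1 = k.1 - 3 + 3
    omega

theorem st_K33 (hR : ST_RAD) (hX : ST_EXT) : ST_K33 := by
  classical
  intro p q A hA
  set P : Fin 6 → ℝ × ℝ := fun k =>
    if h : k.1 < 3 then p ⟨k.1, h⟩ else q ⟨k.1 - 3, by omega⟩ with hP
  have hPl : ∀ i : Fin 3, P (k33_l i) = p i := by
    intro i
    have : (k33_l i).1 < 3 := i.2
    rw [hP]
    exact dif_pos this
  have hPr : ∀ j : Fin 3, P (k33_r j) = q j := by
    intro j
    have : ¬ (k33_r j).1 < 3 := by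
      show ¬ (j.1 + 3 < 3)
      omega
    rw [hP]
    exact (dif_neg this).trans (congrArg q (Fin.ext (by show j.1 + 3 - 3 = j.1; omega)))
  set A' : Fin 6 → Fin 6 → Set (ℝ × ℝ) := fun k l =>
    {z | ∀ a b : Fin 3, k = k33_l a → l = k33_r b → z ∈ A a b} with hA'
  have hl_inj : ∀ a b : Fin 3, k33_l a = k33_l b → a = b := by
    intro a b h
    exact Fin.ext (congrArg (fun t : Fin 6 => t.1) h)
  have hr_inj : ∀ a b : Fin 3, k33_r a = k33_r b → a = b := by
    intro a b h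
    have := congrArg (fun t : Fin 6 => t.1) h
    simp only [k33_r] at this
    exact Fin.ext (by omega)
  have hJ : ∀ k l : Fin 6, k < l → JoinedIn (A' k l) (P k) (P l) := by
    intro k l _
    by_cases h : ∃ a b : Fin 3, k = k33_l a ∧ l = k33_r b
    · obtain ⟨a, b, rfl, rfl⟩ := h
      rw [hPl, hPr]
      refine (hA a b).mono ?_
      intro z hz a' b' ha' hb'
      rw [← hl_inj a a' ha', ← hr_inj b b' hb']
      exact hz
    · have hu : A' k l = Set.univ := by
        apply Set.eq_univ_of_forall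
        intro z a b hka hlb
        exact absurd ⟨a, b, hka, hlb⟩ h
      rw [hu, joinedIn_univ]
      exact PathConnectedSpace.joined _ _
  obtain ⟨φ, hφc, -, hφ⟩ := hX 6 P A' hJ
  set f : (Fin 6 → ℝ) → (Fin 4 → ℝ) := fun x =>
    ![(φ x).1, (φ x).2, k33_d (fun i => x (k33_l i)), k33_d (fun j => x (k33_r j))] with hf
  have hfc : Continuous f := by
    apply continuous_pi
    intro c
    have hd : ∀ g : Fin 3 → Fin 6, Continuous (fun x : Fin 6 → ℝ => k33_d (fun i => x (g i))) := by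
      intro g
      unfold k33_d
      fun_prop
    fin_cases c
    · exact hφc.fst
    · exact hφc.snd
    · exact hd k33_l
    · exact hd k33_r
  obtain ⟨x, y, hx, hy, hxy, he⟩ := hR 4 f hfc
  have e0 : (φ x).1 = (φ y).1 := congrFun he 0
  have e1 : (φ x).2 = (φ y).2 := congrFun he 1
  have e2 : k33_d (fun i => x (k33_l i)) = k33_d (fun i => y (k33_l i)) := congrFun he 2
  have e3 : k33_d (fun i => x (k33_r i)) = k33_d (fun i => y (k33_r i)) := congrFun he 3
  have hφe : φ x = φ y := Prod.ext e0 e1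
  obtain ⟨i, i', hii, hi, hi'⟩ := k33_pair (fun i => hx.1 _) (fun i => hy.1 _)
    (fun i => hxy (k33_l i)) e2
  obtain ⟨j, j', hjj, hj, hj'⟩ := k33_pair (fun i => hx.1 _) (fun i => hy.1 _)
    (fun i => hxy (k33_r i)) e3
  have key : ∀ (z : Fin 6 → ℝ) (u v : Fin 3), z ∈ stdSimplex ℝ (Fin 6) →
      (∀ k, k ≠ u → z (k33_l k) = 0) → (∀ k, k ≠ v → z (k33_r k) = 0) → φ z ∈ A u v := by
    intro z u v hz h1 h2
    have hlt : k33_l u < k33_r v := by
      show u.1 < v.1 + 3
      omega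
    refine hφ (k33_l u) (k33_r v) hlt z hz ?_ u v rfl rfl
    intro k hk1 hk2
    rcases k33_cases k with ⟨w, rfl⟩ | ⟨w, rfl⟩
    · exact h1 w (fun e => hk1 (by rw [e]))
    · exact h2 w (fun e => hk2 (by rw [e]))
  refine ⟨i, i', j, j', hii, hjj, φ x, key x i j hx hi hj, ?_⟩
  rw [hφe]
  exact key y i' j' hy hi' hj'

end OPC
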